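import Pool.Agent.H948.SF.Base

/-!
# Time reversal of infection paths (helper154, for helper948)
-/

set_option autoImplicit false

namespace Pool.Agent.H154.SF

open MeasureTheory ProbabilityTheory Set Filter Pool.Agent.H948.SF
open scoped ENNReal NNReal Nat Topology

section Det

variable {V : Type} {G : SimpleGraph V} {rec : V → Set ℝ} {tr : Sym2 V → Set ℝ} {x y : V}
  {s t : ℝ}

theorem not_rec (h : Path G rec tr x s y t) (h1 : ∀ y, s ∉ rec y)
    (h2 : ∀ e y r, r ∈ tr e → r ∉ rec y) : t ∉ rec y := by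
  induction h with
  | start => exact h1 _
  | @stay y t u h0 hle hr ih =>
    rcases hle.eq_or_lt with h | h
    · subst h
      exact ih
    · exact hr _ h le_rfl
  | cross h0 hadj hlt hmem ih => exact h2 _ _ _ hmem

theorem rev_path (c : ℝ) (h : Path G rec tr x s y t) (h1 : ∀ y, s ∉ rec y)
    (h2 : ∀ e y r, r ∈ tr e → r ∉ rec y) : ∀ (z : V) (u : ℝ), (t < u ∨ ∀ e, t ∉ tr e) →
    Path G (fun y => {r | c - r ∈ rec y}) (fun e => {r | c - r ∈ tr e}) z (c - u) y (c - t) →
    Path G (fun y => {r | c - r ∈ rec y}) (fun e => {r | c - r ∈ tr e}) z (c - u) x (c - s) := by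
  induction h with
  | start =>
    intro z u _ h
    exact h
  | @stay y t t' h0 hle hr ih =>
    intro z u hu hp
    refine ih z u ?_ (hp.stay (by linarith) ?_)
    · rcases hle.eq_or_lt with h | h
      · subst h
        exact hu
      · rcases hu with hu | hu
        · left
          linarith
        · left
          have := hp.le
          linarith
    · intro r hr1 hr2 hr3
      rcases hr2.eq_or_lt with h | h
      · have e : c - r = t := by
          rw [h]
          ring
        have hr3' : c - r ∈ rec y := hr3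
        rw [e] at hr3'
        exact not_rec h0 h1 h2 hr3'
      · exact hr (c - r) (by linarith) (by linarith) hr3
  | @cross y z' t h0 hadj hlt hmem ih =>
    intro z u hu hp
    have hu' : t < u := by
      rcases hu with h | h
      · exact h
      · exact absurd hmem (h _)
    refine ih z u (Or.inl hu') (hp.cross hadj.symm (by linarith) ?_)
    show c - (c - t) ∈ tr s(z', y)
    rw [sub_sub_cancel, Sym2.eq_swap]
    exact hmem

end Det

/-! ### positions -/

/-- reversal of a position -/
noncomputable def fl (u : U1) : U1 :=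
  ⟨if (u : ℝ) < 1 then 1 - (u : ℝ) else 1, by
    split_ifs with h
    · exact ⟨by linarith, by linarith [u.2.1]⟩
    · exact ⟨one_pos, le_rfl⟩⟩

theorem fl_meas : Measurable fl :=
  Measurable.subtype_mk (Measurable.ite (measurableSet_lt measurable_subtype_coe measurable_const)
    (measurable_const.sub measurable_subtype_coe) measurable_const)

theorem fl_val {u : U1} (h : (u : ℝ) < 1) : (fl u : ℝ) = 1 - u := if_pos h

theorem unif_apply (s : Set U1) (hs : MeasurableSet s) : unif s = volume (Subtype.val '' s) := by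
  rw [unif, Measure.comap_apply Subtype.val Subtype.val_injective
    (fun s hs => MeasurableSet.subtype_image measurableSet_Ioc hs) _ hs]

theorem fl_mp : MeasurePreserving fl unif unif := by
  refine ⟨fl_meas, ?_⟩
  ext s hs
  rw [Measure.map_apply fl_meas hs, unif_apply _ (fl_meas hs), unif_apply _ hs]
  have hA : MeasurableSet (Subtype.val '' s : Set ℝ) :=
    MeasurableSet.subtype_image measurableSet_Ioc hs
  have h1 : (Subtype.val '' (fl ⁻¹' s) : Set ℝ) =ᵐ[volume]
      ((fun r : ℝ => 1 - r) ⁻¹' (Subtype.val '' s) : Set ℝ) := by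
    rw [Filter.eventuallyEq_set]
    filter_upwards [compl_mem_ae_iff.2 (Real.volume_singleton (a := 0)),
      compl_mem_ae_iff.2 (Real.volume_singleton (a := 1))] with r h0 h1
    have h0' : r ≠ 0 := h0
    have h1' : r ≠ 1 := h1
    constructor
    · rintro ⟨u, hu, rfl⟩
      have hu1 : (u : ℝ) < 1 := lt_of_le_of_ne u.2.2 h1'
      exact ⟨fl u, hu, fl_val hu1⟩
    · rintro ⟨u, hu, hur⟩
      have hur' : (u : ℝ) = 1 - r := hur
      have hu0 := u.2.1
      have hu1 : (u : ℝ) ≤ 1 := u.2.2
      have hr1 : r < 1 := by linarith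
      have hr0 : 0 < r := lt_of_le_of_ne (by linarith) (Ne.symm h0')
      refine ⟨⟨r, hr0, hr1.le⟩, ?_, rfl⟩
      have e : fl ⟨r, hr0, hr1.le⟩ = u := by
        apply Subtype.ext
        rw [fl_val (show ((⟨r, hr0, hr1.le⟩ : U1) : ℝ) < 1 from hr1), hur']
      show fl ⟨r, hr0, hr1.le⟩ ∈ s
      rw [e]
      exact hu
  rw [measure_congr h1]
  exact (Measure.measurePreserving_sub_left volume (1 : ℝ)).measure_preimage hA.nullMeasurableSet

theorem unif_singleton (u : U1) : unif {u} = 0 := by
  rw [unif_apply _ (measurableSet_singleton u), image_singleton]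
  exact Real.volume_singleton

/-- reversal of a cell -/
noncomputable def cf (C : Cell) : Cell := (C.1, fun m => fl (C.2 m))

theorem cf_mp (r : ℝ) : MeasurePreserving cf (cellLaw r) (cellLaw r) := by
  unfold cellLaw
  have h2 : MeasurePreserving (fun (U : ℕ → U1) (m : ℕ) => fl (U m))
      (Measure.infinitePi fun _ : ℕ => unif) (Measure.infinitePi fun _ : ℕ => unif) := by
    refine ⟨measurable_pi_lambda _ fun m => fl_meas.comp (measurable_pi_apply m), ?_⟩
    rw [Measure.infinitePi_map_pi (fun _ : ℕ => unif) (f := fun _ => fl) (fun _ => fl_meas)]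
    simp only [fl_mp.map_eq]
  exact (MeasurePreserving.id _).prod h2

/-- reversal of the windows: `t` becomes `c - 1 - t` -/
noncomputable def rv {V : Type} (c : ℤ) (ω : Env (Lab V)) : Env (Lab V) :=
  fun i => cf (ω (i.1, c - 1 - i.2))

theorem rv_mp (h1 : S_RIX) (V : Type) (lam : ℝ) (c : ℤ) :
    MeasurePreserving (rv c) (mu V lam) (mu V lam) := by
  have hA : MeasurePreserving (fun (ω : Env (Lab V)) (j : Lab V × ℤ) => ω (j.1, c - 1 - j.2))
      (mu V lam) (mu V lam) := by
    refine h1.1 (Lab V × ℤ) (Lab V × ℤ) (fun j => contactRate lam j.1)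
      (fun j => contactRate lam j.1) (fun j => (j.1, c - 1 - j.2)) ?_ (fun j => rfl)
    rintro ⟨i, t⟩ ⟨i', t'⟩ h
    have e1 : i = i' := congrArg Prod.fst h
    have e2 : c - 1 - t = c - 1 - t' := congrArg Prod.snd h
    have e3 : t = t' := by omega
    rw [e1, e3]
  have hB : MeasurePreserving (fun (ω : Env (Lab V)) (j : Lab V × ℤ) => cf (ω j))
      (mu V lam) (mu V lam) := by
    refine ⟨measurable_pi_lambda _ fun j => (cf_mp 0).measurable.comp (measurable_pi_apply j), ?_⟩
    unfold mu envLaw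
    rw [Measure.infinitePi_map_pi (fun i : Lab V × ℤ => cellLaw (contactRate lam i.1))
      (f := fun _ => cf) (fun _ => (cf_mp 0).measurable)]
    simp only [(cf_mp _).map_eq]
  exact hB.comp hA

/-! ### good environments -/

/-- no mark at an integer, no common marks of edges and vertices -/
def Good {V : Type} (ω : Env (Lab V)) : Prop :=
  (∀ (i : Lab V × ℤ) (m : ℕ), (ω i).2 m ≠ ⟨1, one_pos, le_rfl⟩) ∧
  ∀ (e : Sym2 V) (y : V) (t : ℤ) (m m' : ℕ),
    (ω (Sum.inl e, t)).2 m ≠ (ω (Sum.inr y, t)).2 m'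

theorem pos_mp (r : ℝ) (m : ℕ) :
    MeasurePreserving (fun C : Cell => C.2 m) (cellLaw r) unif := by
  unfold cellLaw
  exact (measurePreserving_eval_infinitePi (fun _ : ℕ => unif) m).comp measurePreserving_snd

theorem diag_null : (unif.prod unif) {p : U1 × U1 | p.1 = p.2} = 0 := by
  have hm : MeasurableSet {p : U1 × U1 | p.1 = p.2} :=
    measurableSet_eq_fun measurable_fst measurable_snd
  rw [Measure.measure_prod_null hm]
  refine Filter.Eventually.of_forall fun u => ?_
  have e : Prod.mk u ⁻¹' {p : U1 × U1 | p.1 = p.2} = {u} := by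
    ext v
    exact ⟨fun h => (h : u = v).symm, fun h => (h : v = u).symm⟩
  show unif (Prod.mk u ⁻¹' {p : U1 × U1 | p.1 = p.2}) = 0
  rw [e]
  exact unif_singleton u

theorem ae_good (V : Type) [Countable V] (lam : ℝ) : ∀ᵐ ω ∂(mu V lam), Good ω := by
  have : Countable (Sym2 V) := inferInstanceAs (Countable (Quot _))
  unfold Good
  refine Filter.Eventually.and ?_ ?_
  · rw [ae_all_iff]
    intro i
    rw [ae_all_iff]
    intro m
    have h1 : MeasurePreserving (fun ω : Env (Lab V) => (ω i).2 m) (mu V lam) unif := by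
      unfold mu envLaw
      exact (pos_mp _ m).comp (measurePreserving_eval_infinitePi
        (fun i : Lab V × ℤ => cellLaw (contactRate lam i.1)) i)
    have h2 := h1.measure_preimage
      (measurableSet_singleton (⟨1, one_pos, le_rfl⟩ : U1)).nullMeasurableSet
    rw [unif_singleton] at h2
    exact compl_mem_ae_iff.2 h2
  · rw [ae_all_iff]
    intro e
    rw [ae_all_iff]
    intro y
    rw [ae_all_iff]
    intro t
    rw [ae_all_iff]
    intro m
    rw [ae_all_iff]
    intro m'
    have hne : ((Sum.inl e, t) : Lab V × ℤ) ≠ (Sum.inr y, t) := by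
      intro h
      have h' : (Sum.inl e : Lab V) = Sum.inr y := congrArg Prod.fst h
      cases h'
    have h0 : MeasurePreserving (fun ω : Env (Lab V) =>
        (ω ((Sum.inl e, t) : Lab V × ℤ), ω ((Sum.inr y, t) : Lab V × ℤ))) (mu V lam)
        ((cellLaw (contactRate lam (Sum.inl e : Lab V))).prod
          (cellLaw (contactRate lam (Sum.inr y : Lab V)))) := by
      unfold mu envLaw
      exact ⟨(measurable_pi_apply _).prodMk (measurable_pi_apply _),
        Measure.infinitePi_map_eval_prod hne⟩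
    have h1 := ((pos_mp (contactRate lam (Sum.inl e : Lab V)) m).prod
      (pos_mp (contactRate lam (Sum.inr y : Lab V)) m')).comp h0
    have hm : MeasurableSet {p : U1 × U1 | p.1 = p.2} :=
      measurableSet_eq_fun measurable_fst measurable_snd
    have h2 := h1.measure_preimage hm.nullMeasurableSet
    rw [diag_null] at h2
    exact compl_mem_ae_iff.2 h2

theorem marks_rv {V : Type} {ω : Env (Lab V)} (hg : Good ω) (c : ℤ) (i : Lab V) (r : ℝ) :
    r ∈ marks (rv c ω) i ↔ (c : ℝ) - r ∈ marks ω i := by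
  have hlt : ∀ (j : Lab V × ℤ) (m : ℕ), (((ω j).2 m : U1) : ℝ) < 1 := by
    intro j m
    refine lt_of_le_of_ne ((ω j).2 m).2.2 fun h => hg.1 j m ?_
    exact Subtype.ext h
  constructor
  · rintro ⟨k, l, hl, hr⟩
    refine ⟨c - 1 - k, l, hl, ?_⟩
    have e : (((rv c ω) (i, k)).2 l : ℝ) = 1 - ((ω (i, c - 1 - k)).2 l : ℝ) :=
      fl_val (hlt _ _)
    rw [hr, e]
    push_cast
    ring
  · rintro ⟨k, l, hl, hr⟩
    have hk : c - 1 - (c - 1 - k) = k := by ring
    refine ⟨c - 1 - k, l, ?_, ?_⟩
    · show l < (ω (i, c - 1 - (c - 1 - k))).1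
      rw [hk]
      exact hl
    · have e : (((rv c ω) (i, c - 1 - k)).2 l : ℝ) =
          1 - ((ω (i, c - 1 - (c - 1 - k))).2 l : ℝ) := fl_val (hlt _ _)
      rw [e, hk]
      push_cast
      linarith

theorem not_int {V : Type} {ω : Env (Lab V)} (hg : Good ω) (n : ℤ) (i : Lab V) :
    (n : ℝ) ∉ marks ω i := by
  rintro ⟨k, l, _, hr⟩
  have h0 := ((ω (i, k)).2 l).2.1
  have h1 : (((ω (i, k)).2 l : U1) : ℝ) < 1 := by
    refine lt_of_le_of_ne ((ω (i, k)).2 l).2.2 fun h => hg.1 (i, k) l ?_
    exact Subtype.ext h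
  have h2 : (k : ℝ) < n := by linarith
  have h3 : (n : ℝ) < k + 1 := by linarith
  have h2' : k < n := by exact_mod_cast h2
  have h3' : n < k + 1 := by exact_mod_cast h3
  omega

theorem disj {V : Type} {ω : Env (Lab V)} (hg : Good ω) (e : Sym2 V) (y : V) (r : ℝ)
    (hr : r ∈ marks ω (Sum.inl e)) : r ∉ marks ω (Sum.inr y) := by
  obtain ⟨k, l, _, h1⟩ := hr
  rintro ⟨k', l', _, h2⟩
  have a0 := ((ω (Sum.inl e, k)).2 l).2.1
  have a1 : (((ω (Sum.inl e, k)).2 l : U1) : ℝ) ≤ 1 := ((ω (Sum.inl e, k)).2 l).2.2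
  have b0 := ((ω (Sum.inr y, k')).2 l').2.1
  have b1 : (((ω (Sum.inr y, k')).2 l' : U1) : ℝ) ≤ 1 := ((ω (Sum.inr y, k')).2 l').2.2
  have h3 : (k : ℝ) < k' + 1 := by linarith
  have h4 : (k' : ℝ) < k + 1 := by linarith
  have h3' : k < k' + 1 := by exact_mod_cast h3
  have h4' : k' < k + 1 := by exact_mod_cast h4
  have h5 : k = k' := by omega
  subst h5
  apply hg.2 e y k l l'
  apply Subtype.ext
  linarith

theorem con_rev {V : Type} {G : SimpleGraph V} {ω : Env (Lab V)} (hg : Good ω) {x y : V}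
    {k l : ℤ} (h : Con G ω x k y l) : Con G (rv (k + l) ω) y k x l := by
  have h1 := rev_path (((k + l : ℤ)) : ℝ) h (fun y => not_int hg k _)
    (fun e y r hr => disj hg e y r hr) y (l : ℝ) (Or.inr fun e => not_int hg l _) Path.start
  have e1 : (((k + l : ℤ) : ℝ) - (l : ℝ)) = (k : ℝ) := by
    push_cast
    ring
  have e2 : (((k + l : ℤ) : ℝ) - (k : ℝ)) = (l : ℝ) := by
    push_cast
    ring
  rw [e1, e2] at h1
  refine Path.mono h1 (fun _ _ h => h) ?_ ?_
  · intro y _ r _ _ hr
    exact (marks_rv hg (k + l) (Sum.inr y) r).1 hr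
  · intro y z _ r _ _ hr
    exact (marks_rv hg (k + l) (Sum.inl s(y, z)) r).2 hr

theorem half (h1 : S_RIX) (h2 : S_MEAS) (V : Type) [Countable V] (G : SimpleGraph V) (lam : ℝ)
    (x y : V) (k l : ℤ) :
    mu V lam {ω | Con G ω x k y l} ≤ mu V lam {ω | Con G ω y k x l} := by
  have e := (rv_mp h1 V lam (k + l)).measure_preimage
    (h2 V G y x (k : ℝ) (l : ℝ)).nullMeasurableSet
  refine le_trans (measure_mono_ae ?_) (le_of_eq e)
  filter_upwards [ae_good V lam] with ω hg h
  exact con_rev hg h

theorem s_rev (h1 : S_RIX) (h2 : S_MEAS) : S_REV := by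
  intro V _ G lam x y k l _ _
  exact le_antisymm (half h1 h2 V G lam x y k l) (half h1 h2 V G lam y x k l)

end Pool.Agent.H154.SF
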